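import Pool.Agent.TFG.Win

/-! LAB, the label lemma (helper93's form). -/

namespace Pool.Agent.H21L

open List Pool.Agent.TF82 Pool.Agent.TFC Pool.Agent.TFB Pool.Agent.TFN Pool.Agent.TFG

universe u

set_option linter.unusedSectionVars false
set_option linter.unusedVariables false

variable {V : Type u} [DecidableEq V]

theorem nomerge_one {G : SimpleGraph V} {F : List (List V)} (hF1 : F.length = 1) {Lo : ℕ}
    (h : Lo < F.flatten.length) : NoMerge G F Lo := by
  intro F' _ hlen
  have : F' = [] := List.length_eq_zero_iff.1 (by omega)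
  subst this
  simpa using h

/-- the positions of the runs of a linked set of hubs are different vertices -/
theorem pos_inj [Fintype V] {G : SimpleGraph V} {F : List (List V)} (hM : IsMax G F.length F)
    (hF1 : F.length = 1) {y : V} {lam : ℕ} (hlam : lam < F.flatten.length)
    {B : Finset V} (hB : ∀ s ∈ B, s ∈ F.flatten)
    (hBB : ∀ s ∈ B, ∀ s' ∈ B, s ≠ s' → Link G F y lam s s') {s s' : V} (hs : s ∈ B)
    (hs' : s' ∈ B) {a a' : ℕ} (ha : a ≤ lam) (ha' : a' ≤ lam)
    (h : (prv F)^[a + 1] s = (prv F)^[a' + 1] s') : s = s' ∧ a = a' := by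
  have key : ∀ (s s' : V), s ∈ B → s' ∈ B → ∀ a a', a ≤ a' → a' ≤ lam →
      (prv F)^[a + 1] s = (prv F)^[a' + 1] s' → s = s' ∧ a = a' := by
    intro s s' hs hs' a a' haa ha' h
    have e1 : a' + 1 = (a + 1) + (a' - a) := by omega
    have e : (prv F)^[a' + 1] s' = (prv F)^[a + 1] ((prv F)^[a' - a] s') := by
      rw [← Function.iterate_add_apply, ← e1]
    rw [e] at h
    have h1 := iter_inj hM.fam (hB s hs) (iter_mem hM.fam (hB s' hs') _) (a + 1) h
    by_cases hss : s = s'
    · refine ⟨hss, ?_⟩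
      subst hss
      by_contra hne
      exact iter_ne_one hM.fam hF1 (hB s hs) (a' - a) (by omega) (by omega) h1.symm
    · exact absurd h1.symm (link_far hM (hB s' hs') (hBB s hs s' hs' hss) (Ne.symm hss) (a' - a)
        (by omega))
  rcases le_total a a' with h' | h'
  · exact key s s' hs hs' a a' h' ha' h
  · obtain ⟨e1, e2⟩ := key s' s hs' hs a' a h' ha h.symm
    exact ⟨e1.symm, e2.symm⟩

/-- LABEL LEMMA -/
theorem label_lemma [Fintype V] {G : SimpleGraph V} {F : List (List V)} (hM : IsMax G F.length F)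
    (hF1 : F.length = 1) {y : V} (hy : y ∈ unc F) {lam : ℕ} (hlam : lam < F.flatten.length)
    {W R : Finset V} (hR : ∀ x ∈ R, x ∈ unc F ∧ x ∉ comp G F y) (Ri : V → V → Prop)
    (hri : ∀ x ∈ R, ∀ u u', Ri x u → Ri x u' → u ≠ u' → Link G F x lam u u')
    {B : Finset V} (hB : ∀ s ∈ B, s ∈ F.flatten)
    (hBB : ∀ s ∈ B, ∀ s' ∈ B, s ≠ s' → Link G F y lam s s')
    (g : V → ℕ) (hg : ∀ s ∈ B, g s ≤ lam)
    (hgg : ∀ s ∈ B, ∀ s' ∈ B, s ≠ s' → g s + g s' ≤ lam + 1)
    (hbl : ∀ s ∈ B, ∀ a, 1 ≤ a → a ≤ g s →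
      (prv F)^[a] s ∈ W ∨ ∃ x ∈ R, Ri x ((prv F)^[a] s)) :
    ∑ s ∈ B, g s ≤ R.card + (W.filter (fun w => w ∈ F.flatten)).card := by
  classical
  have hN : NoMerge G F lam := nomerge_one hF1 hlam
  have H : ∀ p : (_ : V) × ℕ, ∃ l : V, p.1 ∈ B → p.2 < g p.1 →
      (l = (prv F)^[p.2 + 1] p.1 ∧ l ∈ W) ∨ (l ∈ R ∧ Ri l ((prv F)^[p.2 + 1] p.1)) := by
    intro p
    by_cases h : p.1 ∈ B ∧ p.2 < g p.1
    · rcases hbl p.1 h.1 (p.2 + 1) (by omega) (by omega) with h1 | ⟨x, h1, h2⟩
      · exact ⟨_, fun _ _ => Or.inl ⟨rfl, h1⟩⟩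
      · exact ⟨x, fun _ _ => Or.inr ⟨h1, h2⟩⟩
    · exact ⟨y, fun h1 h2 => absurd ⟨h1, h2⟩ h⟩
  choose lab hlab using H
  have hcard : (B.sigma (fun s => Finset.range (g s))).card = ∑ s ∈ B, g s := by
    rw [Finset.card_sigma]
    exact Finset.sum_congr rfl (fun s _ => Finset.card_range _)
  have hmem : ∀ p ∈ B.sigma (fun s => Finset.range (g s)), p.1 ∈ B ∧ p.2 < g p.1 := by
    intro p hp
    rw [Finset.mem_sigma, Finset.mem_range] at hp
    exact hp
  rw [← hcard]
  refine (Finset.card_le_card_of_injOn (t := R ∪ W.filter (fun w => w ∈ F.flatten)) lab ?_ ?_).trans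
    (Finset.card_union_le _ _)
  · intro p hp
    obtain ⟨h1, h2⟩ := hmem p (Finset.mem_coe.1 hp)
    rw [Finset.mem_coe, Finset.mem_union, Finset.mem_filter]
    rcases hlab p h1 h2 with ⟨h3, h4⟩ | ⟨h3, -⟩
    · refine Or.inr ⟨h4, ?_⟩
      rw [h3]
      exact iter_mem hM.fam (hB _ h1) _
    · exact Or.inl h3
  · rintro ⟨s, a⟩ hp ⟨s', a'⟩ hp' heq
    obtain ⟨h1, h2⟩ := hmem _ (Finset.mem_coe.1 hp)
    obtain ⟨h1', h2'⟩ := hmem _ (Finset.mem_coe.1 hp')
    simp only at h1 h2 h1' h2'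
    have hga := hg s h1
    have hga' := hg s' h1'
    have huF : (prv F)^[a + 1] s ∈ F.flatten := iter_mem hM.fam (hB s h1) _
    have huF' : (prv F)^[a' + 1] s' ∈ F.flatten := iter_mem hM.fam (hB s' h1') _
    have same : (prv F)^[a + 1] s = (prv F)^[a' + 1] s' →
        (⟨s, a⟩ : (_ : V) × ℕ) = ⟨s', a'⟩ := by
      intro h
      obtain ⟨e1, e2⟩ := pos_inj hM hF1 hlam hB hBB h1 h1' (by omega) (by omega) h
      subst e1 e2
      rfl
    have l1 := hlab ⟨s, a⟩ h1 h2
    have l2 := hlab ⟨s', a'⟩ h1' h2'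
    rw [← heq] at l2
    generalize lab ⟨s, a⟩ = l at l1 l2
    simp only at l1 l2
    rcases l1 with ⟨l3, l4⟩ | ⟨l3, l4⟩
    · rcases l2 with ⟨l5, l6⟩ | ⟨l5, l6⟩
      · exact same (l3.symm.trans l5)
      · exact absurd (l3 ▸ huF) (mem_unc.1 (hR l l5).1)
    · rcases l2 with ⟨l5, l6⟩ | ⟨l5, l6⟩
      · exact absurd (l5 ▸ huF') (mem_unc.1 (hR l l3).1)
      · by_cases hu : (prv F)^[a + 1] s = (prv F)^[a' + 1] s'
        · exact same hu
        exfalso
        have hl := hri l l3 _ _ l4 l6 hu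
        by_cases hss : s = s'
        · subst hss
          have key : ∀ a a' : ℕ, a < a' → a' < g s →
              (prv F)^[a + 1] s ≠ (prv F)^[a' + 1] s →
              Link G F l lam ((prv F)^[a' + 1] s) ((prv F)^[a + 1] s) → False := by
            intro a a' haa ha' hne hl
            refine link_far hM (iter_mem hM.fam (hB s h1) _) hl hne (a' - a) (by omega) ?_
            rw [← Function.iterate_add_apply]
            congr 1
            omega
          rcases Nat.lt_trichotomy a a' with h | h | h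
          · exact key a a' h h2' hu hl.symm
          · exact hu (by rw [h])
          · exact key a' a h h2 (Ne.symm hu) hl
        · have hd := hgg s h1 s' h1' hss
          have := hub3 hM hN (hB s h1) (hB s' h1') hss hy (hR l l3).1 (hR l l3).2 (a := a)
            (b := a') (n := lam) (n' := lam) (by omega) (by omega)
            (fun i _ hi => link_far hM (hB s h1) (hBB s h1 s' h1' hss).symm hss i (by omega))
            (fun i _ hi => link_far hM (hB s' h1') (hBB s h1 s' h1' hss) (Ne.symm hss) i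
              (by omega))
            (hBB s h1 s' h1' hss) hl
          omega

end Pool.Agent.H21L
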