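import Pool.Agent.H6T.Lab2

/-! Conflict lemma with labels: the surplus lemma, with a set `T` of excused hubs. -/

set_option autoImplicit false

namespace Pool.Agent.H6T.Lab

open List Pool.Agent.TF82 Pool.Agent.TFC Pool.Agent.TFB Pool.Agent.TFN Pool.Agent.TFG
  Pool.Agent.EG31 Pool.Agent.H18C Pool.Agent.H62P Pool.Agent.H72N

universe u

set_option linter.unusedSectionVars false
set_option linter.unusedVariables false

variable {V : Type u} [DecidableEq V]

section

variable [Fintype V] {G : SimpleGraph V} [DecidableRel G.Adj] {W : Finset V} {F : List (List V)}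

theorem good_near_eq {H S : Finset V} {v x : V} (hv : Good G H S v) (h : Near G H S v x) :
    v = x := by
  by_contra hne
  obtain ⟨w, hw, hwv, s1, s2⟩ := h hne v hv
  rcases s1 with s1 | s1
  · exact hwv s1.symm
  · exact s1 (Relation.ReflTransGen.refl)

/-- a hub that sees a good vertex is rich -/
theorem rich_of_good {Z : Finset V} {v u : V} (hv : Good G Z (Sp G W F Z) v)
    (hu : u ∈ F.flatten) (huv : G.Adj u v) : Rich G W F Z u := by
  have h1 : v ∉ W := fun h => hv.nS (Finset.mem_union_left _ (Finset.mem_inter.2 ⟨h, hv.mem⟩))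
  have h2 : v ∉ XX G W F Z := fun h => hv.nS (Finset.mem_union_right _ h)
  have h3 : ∃ x' ∈ Z, G.Adj u x' ∧ x' ≠ v := by
    by_contra hcon
    push Not at hcon
    exact h2 (mem_XX.2 ⟨hv.mem, h1, hv.nc, u, hu, huv, fun x' hx' hux => hcon x' hx' hux⟩)
  obtain ⟨x', hx', hux, hne⟩ := h3
  exact ⟨v, hv.mem, x', hx', huv, hux, fun h => hne (good_near_eq hv h).symm⟩

/-- the hubs used for the component of `y` and its vertex `v` -/
noncomputable def SSv (G : SimpleGraph V) [DecidableRel G.Adj] (W : Finset V) (F : List (List V))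
    (y v : V) : Finset V :=
  (att G F y).filter (fun s => G.Adj v s) ∪ (XX G W F (comp G F y)).image (pend G F (comp G F y))

theorem ssv_kind {y v : V} (hgood : Good G (comp G F y) (Sp G W F (comp G F y)) v) {s : V}
    (hs : s ∈ SSv G W F y v) : s ∈ F.flatten ∧ (Rich G W F (comp G F y) s ∨
      ∃ x ∈ XX G W F (comp G F y), s = pend G F (comp G F y) x) := by
  rcases Finset.mem_union.1 hs with h | h
  · rw [Finset.mem_filter] at h
    have hF := (mem_att.1 h.1).1
    exact ⟨hF, Or.inl (rich_of_good hgood hF h.2.symm)⟩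
  · obtain ⟨x, hx, rfl⟩ := Finset.mem_image.1 h
    exact ⟨(pend_spec hx).1, Or.inr ⟨x, hx, rfl⟩⟩

theorem kind_link {b : ℕ} (hC : CWb G Finset.univ W b) (hM : IsMax G F.length F) {y : V}
    (hy : y ∈ unc F) {n : ℕ} (hK : CWg G (comp G F y) (Sp G W F (comp G F y)) n) {s t : V}
    (hs : Rich G W F (comp G F y) s ∨ ∃ x ∈ XX G W F (comp G F y), s = pend G F (comp G F y) x)
    (ht : Rich G W F (comp G F y) t ∨ ∃ x ∈ XX G W F (comp G F y), t = pend G F (comp G F y) x)
    (hst : s ≠ t) : Link G F y (n + 3) s t := by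
  rcases hs with hs | ⟨x, hx, rfl⟩
  · rcases ht with ht | ⟨x', hx', rfl⟩
    · obtain ⟨q, hq, q', hq', g1, g2, g3⟩ := ht
      exact rich_link' hy hK hs hq g1
    · exact rich_link' hy hK hs (mem_XX.1 hx').1 (pend_spec hx').2.1
  · rcases ht with ht | ⟨x', hx', rfl⟩
    · exact (rich_link' hy hK ht (mem_XX.1 hx).1 (pend_spec hx).2.1).symm
    · refine mk_link hy hK (mem_XX.1 hx).1 (mem_XX.1 hx').1 (pend_spec hx).2.1
        (pend_spec hx').2.1 (unclean_cluster hC hM hy hx x' (mem_XX.1 hx').1 ?_)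
      rintro rfl
      exact hst rfl

/-- SURPLUS LEMMA -/
theorem surplus {b : ℕ} (hC : CWb G Finset.univ W b) (hM : IsMax G F.length F)
    {J : Finset V} (hJU : J ⊆ unc F) (hJ : G.IsIndepSet (J : Set V))
    (hJg : ∀ x ∈ J, Good G (comp G F x) (Sp G W F (comp G F x)) x)
    {y : V} (hy : y ∈ unc F) {n : ℕ} (hK : CWg G (comp G F y) (Sp G W F (comp G F y)) n)
    (hR : NoRet F (n + 3)) {T : Finset V} {g : V → ℕ} {I : Finset V}
    (hI : I ⊆ comp G F y \ Sp G W F (comp G F y)) (hind : G.IsIndepSet (I : Set V)) {v : V}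
    (hv : v ∈ I) (hvc : Conn1 G ((comp G F y).erase v))
    (hg : ∀ s ∈ SSv G W F y v, s ∉ T → g s < n + 3 ∧ ¬ Blk G W F J ((prv F)^[g s + 1] s))
    (hgg : ∀ s ∈ SSv G W F y v, s ∉ T → ∀ s' ∈ SSv G W F y v, s' ∉ T → s ≠ s' →
      g s + g s' < n + 3) :
    I.card + (Sp G W F (comp G F y)).card +
      (b + (J \ comp G F y).card + (W \ comp G F y).card) + 1 ≤
      dU G (comp G F y) v + T.card := by
  classical
  have hIZ : ∀ x ∈ I, x ∈ comp G F y ∧ x ∉ Sp G W F (comp G F y) := fun x hx =>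
    Finset.mem_sdiff.1 (hI hx)
  have hgood : Good G (comp G F y) (Sp G W F (comp G F y)) v :=
    ⟨(hIZ v hv).1, (hIZ v hv).2, hvc⟩
  have hcu : ∀ x ∈ comp G F y, x ∈ unc F := fun x hx => (mem_comp.1 hx).1
  have hIu : ∀ x ∈ I, x ∉ F.flatten := fun x hx => mem_unc.1 (hcu x (hIZ x hx).1)
  have hJu : ∀ x ∈ J, x ∉ F.flatten := fun x hx => mem_unc.1 (hJU hx)
  set E : Finset V := SSv G W F y v \ T with hE
  set e : V → V := fun s => (prv F)^[g s + 1] s with he
  have hES : ∀ s ∈ E, s ∈ SSv G W F y v ∧ s ∉ T := fun s hs => Finset.mem_sdiff.1 hs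
  have hEF : ∀ s ∈ E, s ∈ F.flatten := fun s hs => (ssv_kind hgood (hES s hs).1).1
  have heF : ∀ s ∈ E, e s ∈ F.flatten := fun s hs => iter_mem hM.fam (hEF s hs) _
  have hEg : ∀ s ∈ E, g s < n + 3 ∧ ¬ Blk G W F J (e s) := fun s hs =>
    hg s (hES s hs).1 (hES s hs).2
  have hEl : ∀ s ∈ E, ∀ t ∈ E, s ≠ t → Link G F y (n + 3) s t := fun s hs t ht hst =>
    kind_link hC hM hy hK (ssv_kind hgood (hES s hs).1).2 (ssv_kind hgood (hES t ht).1).2 hst
  -- the ends see no vertex of `I`
  have eI : ∀ s ∈ E, ∀ i ∈ I, ¬ G.Adj (e s) i := by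
    intro s hs i hi hadj
    have hl : Link G F y (n + 3) s (e s) := by
      rcases (ssv_kind hgood (hES s hs).1).2 with h | ⟨x, hx, hsx⟩
      · exact rich_link' hy hK h (hIZ i hi).1 hadj
      · have hp := pend_spec hx
        rw [← hsx] at hp
        refine mk_link hy hK (mem_XX.1 hx).1 (hIZ i hi).1 hp.2.1 hadj
          (unclean_cluster hC hM hy hx i (hIZ i hi).1 ?_)
        rintro rfl
        exact (hIZ _ hi).2 (Finset.mem_union_right _ hx)
    have h1 := hub1r hM hR (hEF s hs) (a := g s) (by have := (hEg s hs).1; omega) hl.symm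
    have := (hEg s hs).1
    omega
  -- the ends see no vertex of `J`
  have eJ : ∀ s ∈ E, ∀ x ∈ J, ¬ G.Adj (e s) x := fun s hs x hx hadj =>
    (hEg s hs).2 (Or.inr ⟨x, hx, rich_of_good (hJg x hx) (heF s hs) hadj⟩)
  have eW : ∀ s ∈ E, e s ∉ W := fun s hs h => (hEg s hs).2 (Or.inl h)
  have ene : ∀ s ∈ E, ∀ t ∈ E, s ≠ t → e s ≠ e t := fun s hs t ht hst =>
    link_iter_ne hM (hEF s hs) (hEF t ht) hst (hEl s hs t ht hst)
      (by have := (hEg s hs).1; omega) (by have := (hEg t ht).1; omega)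
  have ead : ∀ s ∈ E, ∀ t ∈ E, s ≠ t → ¬ G.Adj (e s) (e t) := fun s hs t ht hst =>
    link_nonadj hM (hEF s hs) (hEF t ht) hst (hEl s hs t ht hst) hR
      (hgg s (hES s hs).1 (hES s hs).2 t (hES t ht).1 (hES t ht).2 hst)
  have iJ : ∀ i ∈ I, ∀ x ∈ J, x ∉ comp G F y → ¬ G.Adj i x := by
    intro i hi x hx hxy hadj
    apply hxy
    have h1 := mem_comp.1 (hIZ i hi).1
    exact mem_comp.2 ⟨hJU hx, Relation.ReflTransGen.tail h1.2 ⟨h1.1, hJU hx, hadj⟩⟩
  set K : Finset V := (I ∪ (J \ comp G F y)) ∪ E.image e with hKd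
  have hKW : K ⊆ Finset.univ \ W := by
    intro x hx
    rw [Finset.mem_sdiff]
    refine ⟨Finset.mem_univ _, ?_⟩
    rcases Finset.mem_union.1 hx with hx | hx
    · rcases Finset.mem_union.1 hx with hx | hx
      · intro h
        exact (hIZ x hx).2 (Finset.mem_union_left _ (Finset.mem_inter.2 ⟨h, (hIZ x hx).1⟩))
      · intro h
        have hx' := (Finset.mem_sdiff.1 hx).1
        exact (hJg x hx').nS (Finset.mem_union_left _
          (Finset.mem_inter.2 ⟨h, (hJg x hx').mem⟩))
    · obtain ⟨s, hs, rfl⟩ := Finset.mem_image.1 hx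
      exact eW s hs
  have hKi : G.IsIndepSet ((K : Finset V) : Set V) := by
    intro a ha c hc hac
    rw [Finset.mem_coe, hKd, Finset.mem_union, Finset.mem_union, Finset.mem_sdiff,
      Finset.mem_image] at ha hc
    rcases ha with (ha | ha) | ⟨s, hs, rfl⟩ <;> rcases hc with (hc | hc) | ⟨t, ht, rfl⟩
    · exact hind ha hc hac
    · exact iJ a ha c hc.1 hc.2
    · intro h; exact eI t ht a ha h.symm
    · intro h; exact iJ c hc a ha.1 ha.2 h.symm
    · exact hJ ha.1 hc.1 hac
    · intro h; exact eJ t ht a ha.1 h.symm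
    · exact eI s hs c hc
    · exact eJ s hs c hc.1
    · exact ead s hs t ht (fun h => hac (by rw [h]))
  have key := hC K hKW hKi v (Finset.mem_union_left _ (Finset.mem_union_left _ hv))
  have hd1 : Disjoint (I ∪ (J \ comp G F y)) (E.image e) := by
    rw [Finset.disjoint_left]
    intro x hx hx'
    obtain ⟨s, hs, rfl⟩ := Finset.mem_image.1 hx'
    rcases Finset.mem_union.1 hx with hx | hx
    · exact hIu _ hx (heF s hs)
    · exact hJu _ (Finset.mem_sdiff.1 hx).1 (heF s hs)
  have hd2 : Disjoint I (J \ comp G F y) := by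
    rw [Finset.disjoint_left]
    intro x hx hx'
    exact (Finset.mem_sdiff.1 hx').2 (hIZ x hx).1
  have hcE : (E.image e).card = E.card := by
    refine Finset.card_image_of_injOn ?_
    intro s hs t ht hst
    by_contra hne
    exact ene s (Finset.mem_coe.1 hs) t (Finset.mem_coe.1 ht) hne hst
  rw [hKd, Finset.card_union_of_disjoint hd1, Finset.card_union_of_disjoint hd2, hcE] at key
  -- number of hubs
  have hcS : (SSv G W F y v).card =
      ((att G F y).filter (fun s => G.Adj v s)).card + (XX G W F (comp G F y)).card := by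
    unfold SSv
    rw [Finset.card_union_of_disjoint, Finset.card_image_of_injOn]
    · intro x hx x' hx' h
      have h1 := pend_spec (Finset.mem_coe.1 hx)
      have h2 := pend_spec (Finset.mem_coe.1 hx')
      rw [h] at h1
      exact h2.2.2 x (mem_XX.1 (Finset.mem_coe.1 hx)).1 h1.2.1
    · rw [Finset.disjoint_left]
      intro s hs hs'
      obtain ⟨x, hx, rfl⟩ := Finset.mem_image.1 hs'
      have h1 := (Finset.mem_filter.1 hs).2
      have h2 := (pend_spec hx).2.2 v hgood.mem h1.symm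
      exact hgood.nS (Finset.mem_union_right _ (h2 ▸ hx))
  have hcE2 : (SSv G W F y v).card ≤ E.card + T.card := by
    rw [hE]
    have := Finset.le_card_sdiff T (SSv G W F y v)
    omega
  have hdeg : dU G Finset.univ v = dU G (comp G F y) v +
      ((att G F y).filter (fun s => G.Adj v s)).card := by
    rw [dU_comp hgood.mem]
    exact att_deg hy (mem_comp.1 hgood.mem).2
  have hSp : (Sp G W F (comp G F y)).card = (W ∩ comp G F y).card +
      (XX G W F (comp G F y)).card := Finset.card_union_of_disjoint XX_W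
  have hWc : (W ∩ comp G F y).card + (W \ comp G F y).card = W.card :=
    Finset.card_inter_add_card_sdiff W (comp G F y)
  omega

end

end Pool.Agent.H6T.Lab
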